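import Mathlib

set_option autoImplicit false

/-!
# The cyclic subfield of degree `2 ^ N` of the field of the `l`-th roots of unity
-/

open NumberField IsDedekindDomain

namespace Pool.Agent.T9h73.BF

theorem exists_cyclotomic (l : ℕ) [NeZero l] :
    ∃ (C : Type) (_ : Field C) (_ : NumberField C), IsCyclotomicExtension {l} ℚ C := by
  have : NeZero ((l : ℕ) : ℚ) := ⟨by exact_mod_cast NeZero.ne l⟩
  have h1 : IsCyclotomicExtension {l} ℚ (CyclotomicField l ℚ) :=
    CyclotomicField.isCyclotomicExtension l ℚ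
  have h : NumberField (CyclotomicField l ℚ) := inferInstance
  refine ⟨CyclotomicField l ℚ, inferInstance, h, ?_⟩
  convert h1

theorem isGalois_C (l : ℕ) [Fact l.Prime] (C : Type) [Field C] [NumberField C]
    [IsCyclotomicExtension {l} ℚ C] : IsGalois ℚ C :=
  IsCyclotomicExtension.isGalois {l} ℚ C

section
variable (N l : ℕ) [hl : Fact l.Prime] (C : Type) [Field C] [NumberField C]
  [hC : IsCyclotomicExtension {l} ℚ C]

/-- the isomorphism of the Galois group with the units modulo `l` -/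
noncomputable def eqv : (C ≃ₐ[ℚ] C) ≃* (ZMod l)ˣ :=
  IsCyclotomicExtension.autEquivPow C (Polynomial.cyclotomic.irreducible_rat hl.out.pos)

/-- the subgroup of the `2 ^ N`-th powers -/
noncomputable def HH : Subgroup (C ≃ₐ[ℚ] C) :=
  ((powMonoidHom (2 ^ N) : (ZMod l)ˣ →* (ZMod l)ˣ).range).comap (eqv l C).toMonoidHom

instance : (HH N l C).Normal := by
  unfold HH
  infer_instance

theorem eqv_spec (s : C ≃ₐ[ℚ] C) :
    (IsCyclotomicExtension.zeta l ℚ C) ^ ((eqv l C s : ZMod l)).val =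
      s (IsCyclotomicExtension.zeta l ℚ C) :=
  (IsCyclotomicExtension.zeta_spec l ℚ C).autToPow_spec ℚ s

theorem index_HH (h : l % 2 ^ (N + 1) = 1) : (HH N l C).index = 2 ^ N := by
  unfold HH
  have hs : Function.Surjective (eqv l C).toMonoidHom := (eqv l C).surjective
  rw [Subgroup.index_comap_of_surjective _ hs, IsCyclic.index_powMonoidHom_range,
    Nat.card_eq_fintype_card, ZMod.card_units_eq_totient, Nat.totient_prime hl.out]
  have h1 : 2 ^ N ∣ l - 1 := by
    have h2 : 2 ^ (N + 1) ∣ l - 1 := (Nat.modEq_iff_dvd' hl.out.one_lt.le).1 (by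
      unfold Nat.ModEq
      rw [h, Nat.mod_eq_of_lt (Nat.one_lt_two_pow (by omega))])
    exact dvd_trans (pow_dvd_pow 2 (Nat.le_succ N)) h2
  exact Nat.gcd_eq_right h1

theorem mem_HH (s : C ≃ₐ[ℚ] C) : s ∈ HH N l C ↔ ∃ u : (ZMod l)ˣ, u ^ 2 ^ N = eqv l C s := by
  unfold HH
  rw [Subgroup.mem_comap, MonoidHom.mem_range]
  rfl

/-- the field -/
noncomputable def KK : IntermediateField ℚ C := IntermediateField.fixedField (HH N l C)

theorem fix_KK (s : C ≃ₐ[ℚ] C) (hs : s ∈ HH N l C) (x : C) (hx : x ∈ KK N l C) : s x = x :=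
  (IntermediateField.mem_fixedField_iff _ _).1 hx s hs

theorem isGalois_KK : IsGalois ℚ (KK N l C) := by
  have := isGalois_C l C
  have h1 : (HH N l C).Normal := inferInstance
  exact IsGalois.of_fixedField_normal_subgroup (HH N l C)

theorem finrank_KK (h : l % 2 ^ (N + 1) = 1) : Module.finrank ℚ (KK N l C) = 2 ^ N := by
  have := isGalois_C l C
  rw [IntermediateField.finrank_eq_fixingSubgroup_index, KK,
    IntermediateField.fixingSubgroup_fixedField, index_HH N l C h]

theorem cyclic_KK : IsCyclic (KK N l C ≃ₐ[ℚ] KK N l C) := by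
  have := isGalois_C l C
  have := isGalois_KK N l C
  have : IsCyclic (C ≃ₐ[ℚ] C) := isCyclic_of_surjective (eqv l C).symm (eqv l C).symm.surjective
  exact isCyclic_of_surjective (AlgEquiv.restrictNormalHom (F := ℚ) (K₁ := C) (KK N l C))
    (AlgEquiv.restrictNormalHom_surjective C)

theorem discr_KK (q : ℕ) (hq : q.Prime) (h : (q : ℤ) ∣ NumberField.discr (KK N l C)) : q = l := by
  have h1 : NumberField.discr (KK N l C) ∣ NumberField.discr C :=
    NumberField.discr_dvd_discr (KK N l C) C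
  have h2 := h.trans h1
  rw [IsCyclotomicExtension.Rat.discr_prime l C] at h2
  have hq' : Prime (q : ℤ) := Nat.prime_iff_prime_int.1 hq
  rcases hq'.dvd_mul.1 h2 with h3 | h3
  · exfalso
    have h4 := hq'.dvd_of_dvd_pow h3
    rw [dvd_neg] at h4
    exact hq'.not_dvd_one h4
  · have h4 := hq'.dvd_of_dvd_pow h3
    exact (Nat.prime_dvd_prime_iff_eq hq hl.out).1 (Int.natCast_dvd_natCast.1 h4)

/-- the automorphism `ζ ↦ ζ ^ q` -/
theorem exists_q (q : ℕ) (hq : q.Prime) (hql : q ≠ l) (hx : ∃ x : ZMod l, x ^ 2 ^ N = q) :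
    ∃ s ∈ HH N l C, s (IsCyclotomicExtension.zeta l ℚ C) =
      (IsCyclotomicExtension.zeta l ℚ C) ^ q := by
  obtain ⟨x, hx⟩ := hx
  have hcop : q.Coprime l := (Nat.coprime_primes hq hl.out).2 hql
  have hx0 : x ≠ 0 := by
    rintro rfl
    rw [zero_pow (by positivity)] at hx
    have h1 : (l : ℕ) ∣ q := (ZMod.natCast_eq_zero_iff q l).1 hx.symm
    exact hql ((Nat.prime_dvd_prime_iff_eq hl.out hq).1 h1).symm
  refine ⟨(eqv l C).symm (Units.mk0 x hx0 ^ 2 ^ N), ?_, ?_⟩
  · rw [mem_HH]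
    exact ⟨Units.mk0 x hx0, by rw [MulEquiv.apply_symm_apply]⟩
  · rw [← eqv_spec l C, MulEquiv.apply_symm_apply]
    have h1 : (((Units.mk0 x hx0 ^ 2 ^ N : (ZMod l)ˣ) : ZMod l)).val = q % l := by
      rw [Units.val_pow_eq_pow_val, Units.val_mk0, hx, ZMod.val_natCast]
    rw [h1]
    have hz : (IsCyclotomicExtension.zeta l ℚ C) ^ l = 1 :=
      (IsCyclotomicExtension.zeta_spec l ℚ C).pow_eq_one
    conv_rhs => rw [← Nat.mod_add_div q l, pow_add, pow_mul, hz, one_pow, mul_one]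

/-- the automorphism `ζ ↦ ζ⁻¹` -/
theorem exists_conj (h : l % 2 ^ (N + 1) = 1) :
    ∃ s ∈ HH N l C, s (IsCyclotomicExtension.zeta l ℚ C) =
      (IsCyclotomicExtension.zeta l ℚ C)⁻¹ := by
  refine ⟨(eqv l C).symm (-1), ?_, ?_⟩
  · rw [mem_HH, MulEquiv.apply_symm_apply]
    have h2 : 2 ^ (N + 1) ∣ l - 1 := (Nat.modEq_iff_dvd' hl.out.one_lt.le).1 (by
      unfold Nat.ModEq
      rw [h, Nat.mod_eq_of_lt (Nat.one_lt_two_pow (by omega))])
    obtain ⟨m, hm⟩ := h2
    obtain ⟨g, hg⟩ := IsCyclic.exists_ofOrder_eq_natCard (α := (ZMod l)ˣ)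
    have hcard : Nat.card (ZMod l)ˣ = l - 1 := by
      rw [Nat.card_eq_fintype_card, ZMod.card_units_eq_totient, Nat.totient_prime hl.out]
    rw [hcard] at hg
    refine ⟨g ^ m, ?_⟩
    have hl1 : 1 < l := hl.out.one_lt
    have hm0 : 0 < m := by
      rcases Nat.eq_zero_or_pos m with h3 | h3
      · rw [h3] at hm
        omega
      · exact h3
    have h3 : (g ^ m) ^ 2 ^ N * (g ^ m) ^ 2 ^ N = 1 := by
      rw [← pow_mul, ← pow_add, show m * 2 ^ N + m * 2 ^ N = l - 1 by rw [hm]; ring, ← hg,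
        pow_orderOf_eq_one]
    have h4 : (g ^ m) ^ 2 ^ N ≠ 1 := by
      rw [← pow_mul]
      intro h5
      have h6 := orderOf_dvd_of_pow_eq_one h5
      rw [hg] at h6
      have h7 := Nat.le_of_dvd (by positivity) h6
      rw [hm, pow_succ] at h7
      nlinarith [Nat.one_le_two_pow (n := N), Nat.mul_pos (pow_pos (show 0 < 2 by norm_num) N) hm0]
    rcases mul_self_eq_one_iff.1 (show ((((g ^ m) ^ 2 ^ N : (ZMod l)ˣ) : ZMod l)) *
        (((g ^ m) ^ 2 ^ N : (ZMod l)ˣ) : ZMod l) = 1 by rw [← Units.val_mul, h3, Units.val_one])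
      with h5 | h5
    · exact absurd (Units.ext h5) h4
    · exact Units.ext (by rw [h5, Units.val_neg, Units.val_one])
  · rw [← eqv_spec l C, MulEquiv.apply_symm_apply]
    have hz : (IsCyclotomicExtension.zeta l ℚ C) ^ l = 1 :=
      (IsCyclotomicExtension.zeta_spec l ℚ C).pow_eq_one
    have h1 : (((-1 : (ZMod l)ˣ) : ZMod l)).val = l - 1 := by
      rw [Units.val_neg, Units.val_one]
      have : NeZero l := ⟨hl.out.ne_zero⟩
      obtain ⟨k, rfl⟩ : ∃ k, l = k + 1 := ⟨l - 1, by have := hl.out.pos; omega⟩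
      rw [ZMod.val_neg_one]
      simp
    rw [h1]
    refine eq_inv_of_mul_eq_one_left ?_
    rw [← pow_succ, Nat.sub_add_cancel hl.out.pos, hz]

end

end Pool.Agent.T9h73.BF
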