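import Pool.Agent.T9h30.BF.Spec
import Pool.Agent.T9h89.BF.Split
import Pool.Agent.T9h73.BF.CycA

set_option autoImplicit false

open NumberField IsDedekindDomain

namespace Pool.Agent.T9h73.BF

theorem cyc : Pool.Agent.T9h30.BF.StCyc := by
  intro N l hl h
  have : Fact l.Prime := ⟨hl⟩
  have : NeZero l := ⟨hl.ne_zero⟩
  obtain ⟨C, iC, nC, hC⟩ := exists_cyclotomic l
  have hmain : ∃ (K : Type) (_ : Field K) (_ : NumberField K) (_ : Algebra ℚ K), IsGalois ℚ K ∧
      Module.finrank ℚ K = 2 ^ N ∧ IsCyclic (K ≃ₐ[ℚ] K) ∧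
      (∀ q : ℕ, q.Prime → (q : ℤ) ∣ NumberField.discr K → q = l) ∧
      (∀ q : ℕ, q.Prime → q ≠ l → (∃ x : ZMod l, x ^ 2 ^ N = q) →
        ∀ v : HeightOneSpectrum (𝓞 K), (q : 𝓞 K) ∈ v.asIdeal → Ideal.absNorm v.asIdeal = q) ∧
      ∀ w : InfinitePlace K, w.IsReal := by
    refine ⟨KK N l C, inferInstance, inferInstance, inferInstance, isGalois_KK N l C,
      finrank_KK N l C h, cyclic_KK N l C, discr_KK N l C, ?_, ?_⟩
    · intro q hq hql hx v hv
      obtain ⟨s, hs, hsz⟩ := exists_q N l C q hq hql hx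
      exact Pool.Agent.T9h89.BF.split (IsCyclotomicExtension.zeta_spec l ℚ C) (KK N l C) s
        (fun x hx => fix_KK N l C s hs x hx) q hq hsz v hv
    · intro w
      obtain ⟨s, hs, hsz⟩ := exists_conj N l C h
      exact Pool.Agent.T9h89.BF.real (IsCyclotomicExtension.zeta_spec l ℚ C) (KK N l C) s
        (fun x hx => fix_KK N l C s hs x hx) hsz w
  obtain ⟨K, i1, i2, i3, h1⟩ := hmain
  have h2 : i3 = DivisionRing.toRatAlgebra := Subsingleton.elim _ _
  subst h2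
  exact ⟨K, i1, i2, h1⟩

end Pool.Agent.T9h73.BF
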